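import Pool.Agent.H30.VX.Targets

/-!
MP_d32443_co, large `k`, row L3B: a shortest system to the hubs meets `B` in few vertices.
-/

set_option autoImplicit false

open Finset Pool.Agent.H48.CE Pool.Agent.H30.VR Pool.Agent.H30.VX

namespace Pool.Agent.H45.VX

theorem pf_L3B (hMN2 : T_MN2) (hCUT : T_CUT) : T_L3B := by
  intro V _ G H B a Q hQ hHB
  classical
  have hPS := hQ.1
  -- the exceptional vertices are the last but one on their paths
  have key : ∀ v ∈ B.filter (fun v => ∃ i, v ∈ Q i),
      v ∉ B.filter (fun v => (nb G H v).card ≤ 3) →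
      ∃ i, (Q i).dropLast.getLast? = some v := by
    intro v hv hv'
    obtain ⟨hvB, i, hvi⟩ := mem_filter.1 hv
    have h4 : 3 < (nb G H v).card := by
      by_contra hcon
      exact hv' (mem_filter.2 ⟨hvB, by omega⟩)
    -- a neighbour in `H` on no path
    obtain ⟨y, hy, hyQ⟩ : ∃ y ∈ nb G H v, ∀ j, y ∉ Q j := by
      by_contra hcon
      push Not at hcon
      have hch : ∀ y ∈ nb G H v, ∃ j, (Q j).getLast? = some y := by
        intro y hy
        obtain ⟨j, hj⟩ := hcon y hy
        exact ⟨j, hMN2 G a H Q hQ j y hj (mem_nb.1 hy).1⟩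
      let f : V → Fin 3 := fun y => if h : ∃ j, (Q j).getLast? = some y then h.choose else 0
      have hf : ∀ y ∈ nb G H v, (Q (f y)).getLast? = some y := by
        intro y hy
        have hex := hch y hy
        have h5 : f y = hex.choose := dif_pos hex
        rw [h5]
        exact hex.choose_spec
      have h6 : (nb G H v).card ≤ (univ : Finset (Fin 3)).card := by
        refine card_le_card_of_injOn f (fun y _ => mem_coe.2 (mem_univ _)) ?_
        intro y hy z hz hyz
        have h7 := hf y (mem_coe.1 hy)
        have h8 := hf z (mem_coe.1 hz)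
        rw [hyz, h8] at h7
        exact (Option.some.inj h7).symm
      rw [card_univ, Fintype.card_fin] at h6
      omega
    rw [mem_nb] at hy
    obtain ⟨l₁, l₂, hl⟩ := List.append_of_mem hvi
    obtain ⟨Q', hQ', htl⟩ := hCUT G a H Q hPS i l₁ l₂ v y hl hy.1 hyQ hy.2
    have h9 := hQ.2 Q' hQ'
    have h10 : l₂.length ≤ 1 := by omega
    obtain ⟨z, hzH, hz⟩ := hPS.last i
    refine ⟨i, ?_⟩
    cases l₂ with
    | nil =>
      exfalso
      rw [hl] at hz
      have h11 : v = z := by simpa using hz
      rw [← h11] at hzH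
      exact hHB v hzH hvB
    | cons w l₃ =>
      have h12 : l₃ = [] := by
        apply List.eq_nil_of_length_eq_zero
        rw [List.length_cons] at h10
        omega
      rw [hl, h12, show l₁ ++ v :: [w] = (l₁ ++ [v]) ++ [w] by simp, List.dropLast_concat]
      simp
  let f : V → Fin 3 := fun v => if h : ∃ j, (Q j).dropLast.getLast? = some v then h.choose else 0
  have hf : ∀ v, (∃ j, (Q j).dropLast.getLast? = some v) →
      (Q (f v)).dropLast.getLast? = some v := by
    intro v hex
    have h5 : f v = hex.choose := dif_pos hex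
    rw [h5]
    exact hex.choose_spec
  have h3 : (B.filter (fun v => ∃ i, v ∈ Q i) \
      B.filter (fun v => (nb G H v).card ≤ 3)).card ≤ 3 := by
    have h6 : (B.filter (fun v => ∃ i, v ∈ Q i) \
        B.filter (fun v => (nb G H v).card ≤ 3)).card ≤ (univ : Finset (Fin 3)).card := by
      refine card_le_card_of_injOn f (fun y _ => mem_coe.2 (mem_univ _)) ?_
      intro y hy z hz hyz
      obtain ⟨hy1, hy2⟩ := Finset.mem_sdiff.1 (mem_coe.1 hy)
      obtain ⟨hz1, hz2⟩ := Finset.mem_sdiff.1 (mem_coe.1 hz)
      have h7 := hf y (key y hy1 hy2)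
      have h8 := hf z (key z hz1 hz2)
      rw [hyz, h8] at h7
      exact (Option.some.inj h7).symm
    rw [card_univ, Fintype.card_fin] at h6
    exact h6
  have h4 : (B.filter (fun v => ∃ i, v ∈ Q i)).card ≤
      (B.filter (fun v => (nb G H v).card ≤ 3)).card +
        (B.filter (fun v => ∃ i, v ∈ Q i) \
          B.filter (fun v => (nb G H v).card ≤ 3)).card := by
    rw [← card_union_of_disjoint disjoint_sdiff]
    apply card_le_card
    intro x hx
    rw [mem_union, Finset.mem_sdiff]
    by_cases hx' : x ∈ B.filter (fun v => (nb G H v).card ≤ 3)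
    · exact Or.inl hx'
    · exact Or.inr ⟨hx, hx'⟩
  omega

end Pool.Agent.H45.VX
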