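import Pool.Agent.H30.VX.Targets

/-!
MP_d32443_co, large `k`, row L3C: few vertices of `B` have at most 3 neighbours in `H`.
-/

set_option autoImplicit false

open Finset Pool.Agent.H48.CE Pool.Agent.H30.VR Pool.Agent.H30.VX

namespace Pool.Agent.H45.VX

theorem pf_L3C : T_L3C := by
  intro V G H B ε k hC hε hk
  classical
  obtain ⟨hdis, hH, hB, hnb⟩ := hC
  have hkR : (100 : ℝ) ≤ k := by exact_mod_cast hk
  have hHc : (99 : ℝ) ≤ H.card := by nlinarith
  have hHB : (0 : ℝ) ≤ (H.card : ℝ) * B.card := by positivity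
  have hB0 : (0 : ℝ) < B.card := by nlinarith
  -- lower bound
  have h1 : (1 - ε) * B.card * H.card ≤ (ee G H B : ℝ) := by
    unfold ee
    push_cast
    have h2 : ∑ h ∈ H, (1 - ε) * (B.card : ℝ) ≤ ∑ h ∈ H, ((nb G B h).card : ℝ) :=
      Finset.sum_le_sum fun h hh => hnb h hh
    rw [sum_const, nsmul_eq_mul] at h2
    linarith
  -- upper bound
  set T := B.filter (fun v => (nb G H v).card ≤ 3) with hT
  have hTB : T ⊆ B := filter_subset _ _
  have h3 : ee G B H ≤ T.card * 3 + (B \ T).card * H.card := by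
    unfold ee
    rw [← Finset.sum_sdiff hTB, add_comm]
    refine Nat.add_le_add ?_ ?_
    · rw [← smul_eq_mul, ← sum_const]
      exact Finset.sum_le_sum fun v hv => (mem_filter.1 hv).2
    · rw [← smul_eq_mul, ← sum_const]
      exact Finset.sum_le_sum fun v _ => card_le_card (nb_subset H v)
  rw [ee_comm] at h3
  have h4 : (B \ T).card + T.card = B.card := card_sdiff_add_card_eq_card hTB
  have h5 : ((B \ T).card : ℝ) = B.card - T.card := by
    have : ((B \ T).card : ℝ) + T.card = B.card := by exact_mod_cast h4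
    linarith
  have h6 : (ee G H B : ℝ) ≤ T.card * 3 + (B.card - T.card) * H.card := by
    rw [← h5]
    exact_mod_cast h3
  have h7 : (T.card : ℝ) * (H.card - 3) ≤ ε * (H.card * B.card) := by nlinarith
  have h8 : ε * ((H.card : ℝ) * B.card) ≤ 1 / 2000 * (H.card * B.card) :=
    mul_le_mul_of_nonneg_right hε hHB
  by_contra hcon
  push Not at hcon
  have h9 : (B.card : ℝ) / 500 * (H.card - 3) < T.card * (H.card - 3) :=
    mul_lt_mul_of_pos_right hcon (by linarith)
  nlinarith

end Pool.Agent.H45.VX
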