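import Pool.Agent.H30.VX.Targets

/-!
MP_d32443_co, large `k`, row MN2: a path of a shortest system meets `Y` in its last vertex only.
-/

set_option autoImplicit false

open Finset Pool.Agent.H48.CE Pool.Agent.H30.VR Pool.Agent.H30.VX

namespace Pool.Agent.H45.VX

theorem pf_MN2 : T_MN2 := by
  intro V ι _ G a Y Q hQ i v hv hvY
  classical
  by_contra hlast
  obtain ⟨hPS, hmin⟩ := hQ
  obtain ⟨l₁, l₂, hl⟩ := List.append_of_mem hv
  have hl2 : l₂ ≠ [] := by
    rintro rfl
    apply hlast
    rw [hl]
    simp
  have hpre : l₁ ++ [v] <+: Q i := by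
    rw [hl]
    exact ⟨l₂, by simp⟩
  let Q' : ι → List V := Function.update Q i (l₁ ++ [v])
  have hQi : Q' i = l₁ ++ [v] := Function.update_self _ _ _
  have hQj : ∀ j, j ≠ i → Q' j = Q j := fun j hj => Function.update_of_ne hj _ _
  have hsub : ∀ j, ∀ x ∈ Q' j, x ∈ Q j := by
    intro j x hx
    by_cases hj : j = i
    · subst hj
      rw [hQi] at hx
      exact hpre.subset hx
    · rw [hQj j hj] at hx
      exact hx
  have hPS' : PS G a Y Q' := by
    refine ⟨fun j => ?_, fun j => ?_, fun j => ?_, fun j => ?_, fun j j' hjj x hx hx' => ?_⟩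
    · by_cases hj : j = i
      · subst hj
        rw [hQi]
        obtain ⟨r, hr⟩ := hpre
        have hch := hPS.chain j
        rw [← hr] at hch
        exact (List.isChain_append.1 hch).1
      · rw [hQj j hj]
        exact hPS.chain j
    · by_cases hj : j = i
      · subst hj
        rw [hQi]
        exact (hPS.nodup j).sublist hpre.sublist
      · rw [hQj j hj]
        exact hPS.nodup j
    · by_cases hj : j = i
      · subst hj
        rw [hQi, ← hPS.head j, hl]
        cases l₁ <;> simp
      · rw [hQj j hj]
        exact hPS.head j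
    · by_cases hj : j = i
      · subst hj
        rw [hQi]
        exact ⟨v, hvY, by simp⟩
      · rw [hQj j hj]
        exact hPS.last j
    · exact hPS.disj j j' hjj x (hsub j x hx) (hsub j' x hx')
  have h1 := hmin Q' hPS'
  unfold tl at h1
  rw [← Finset.add_sum_erase univ (fun j => (Q j).length) (mem_univ i),
    ← Finset.add_sum_erase univ (fun j => (Q' j).length) (mem_univ i)] at h1
  have h2 : ∑ j ∈ univ.erase i, (Q' j).length = ∑ j ∈ univ.erase i, (Q j).length :=
    Finset.sum_congr rfl fun j hj => by rw [hQj j (Finset.ne_of_mem_erase hj)]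
  rw [h2, hQi, hl] at h1
  have h3 : 0 < l₂.length := List.length_pos_iff.2 hl2
  simp only [List.length_append, List.length_cons, List.length_nil] at h1
  omega

end Pool.Agent.H45.VX
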