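import Pool.Agent.H30.VX.Targets

/-!
MP_d32443_co, large `k`, row OBH: the hubs are on one side of every separation of order 2.
-/

set_option autoImplicit false

open Finset Pool.Agent.H48.CE Pool.Agent.H30.VR Pool.Agent.H30.VX

namespace Pool.Agent.H45.VX

theorem pf_OBH : T_OBH := by
  intro V G H B ε k hC hε hk P Q hsp
  classical
  obtain ⟨hdis, hH, hB, hnb⟩ := hC
  obtain ⟨hcov, hsep, hord⟩ := hsp
  by_contra hcon
  push Not at hcon
  obtain ⟨hP, hQ⟩ := hcon
  obtain ⟨h, hh, hhP⟩ := Finset.not_subset.1 hP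
  obtain ⟨h', hh', hhQ⟩ := Finset.not_subset.1 hQ
  have hhQ' : h ∈ Q := (hcov h).resolve_left hhP
  have hhP' : h' ∈ P := (hcov h').resolve_right hhQ
  have hkR : (10 : ℝ) ≤ k := by exact_mod_cast hk
  have hBc : (14 : ℝ) ≤ B.card := by nlinarith
  have h1 := hnb h hh
  have h2 := hnb h' hh'
  have h3 := card_union_add_card_inter (nb G B h) (nb G B h')
  have h4 : (nb G B h ∪ nb G B h').card ≤ B.card :=
    card_le_card (union_subset (nb_subset B h) (nb_subset B h'))
  have h5 : (nb G B h ∩ nb G B h').card ≤ 2 := by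
    refine le_trans (card_le_card ?_) hord
    intro v hv
    obtain ⟨hv1, hv2⟩ := mem_inter.1 hv
    rw [mem_nb] at hv1 hv2
    have hvQ : v ∈ Q := by
      by_contra hvQ
      have hvP : v ∈ P := (hcov v).resolve_right hvQ
      exact hsep v hvP hvQ h hhQ' hhP hv1.2.symm
    have hvP : v ∈ P := by
      by_contra hvP
      exact hsep h' hhP' hhQ v hvQ hvP hv2.2
    exact mem_filter.2 ⟨hvP, hvQ⟩
  have h6 : ((nb G B h ∪ nb G B h').card : ℝ) + (nb G B h ∩ nb G B h').card =
      (nb G B h).card + (nb G B h').card := by exact_mod_cast h3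
  have h7 : ((nb G B h ∪ nb G B h').card : ℝ) ≤ B.card := by exact_mod_cast h4
  have h8 : ((nb G B h ∩ nb G B h').card : ℝ) ≤ 2 := by exact_mod_cast h5
  nlinarith

end Pool.Agent.H45.VX
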